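import Pool.Agent.H742Z.GP.Defs2

/-!
Tail bounds for negative clusters and for rays.
-/

set_option autoImplicit false

open scoped ENNReal
open MeasureTheory ProbabilityTheory Filter Topology Set

namespace Pool.Agent.H742Z.GP

universe u

namespace Cluster

/-- events depending on pairwise disjoint blocks of an independent family are independent -/
lemma iIndepSet_blocks {Ω ι κ : Type*} [mΩ : MeasurableSpace Ω] (P : Measure Ω)
    [IsProbabilityMeasure P] (m : ι → MeasurableSpace Ω) (hle : ∀ i, m i ≤ mΩ)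
    (hi : iIndep m P) (B : κ → Set ι) (hB : ∀ a b, a ≠ b → Disjoint (B a) (B b))
    (F : κ → Set Ω) (hF : ∀ a, MeasurableSet[⨆ i ∈ B a, m i] (F a)) : iIndepSet F P := by
  classical
  have hFm : ∀ a, MeasurableSet (F a) := fun a =>
    (iSup₂_le fun i _ => hle i : (⨆ i ∈ B a, m i) ≤ mΩ) _ (hF a)
  rw [iIndepSet_iff_meas_biInter hFm]
  intro s
  induction s using Finset.induction_on with
  | empty => simp
  | insert a s ha ih =>
    rw [Finset.set_biInter_insert, Finset.prod_insert ha, ← ih]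
    have hI := indep_iSup_of_disjoint hle hi (disjoint_compl_right (a := B a))
    refine (Indep_iff _ _ _).1 hI _ _ (hF a) ?_
    refine Finset.measurableSet_biInter s fun b hb => ?_
    have hab : a ≠ b := fun h => ha (h ▸ hb)
    have hsub : B b ⊆ (B a)ᶜ := (hB a b hab).subset_compl_left
    exact (biSup_mono (f := m) hsub : (⨆ i ∈ B b, m i) ≤ ⨆ i ∈ (B a)ᶜ, m i) _ (hF b)

lemma measurableSet_cnt {d : ℕ} {Ω : Type u} (M : MeasurableSpace Ω) (X : V d → Ω → ℝ)
    (S : ℕ) (v : V d) (k j : ℕ)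
    (h : ∀ u ∈ ball v S, MeasurableSet[M] {ω | X u ω < -(k : ℝ)}) :
    MeasurableSet[M] {ω | j ≤ cnt S (fun u => X u ω) v k} := by
  have hm : Measurable[M] fun ω => cnt S (fun u => X u ω) v k := by
    unfold cnt
    simp only [Finset.card_filter]
    exact Finset.measurable_sum _ fun u hu =>
      Measurable.ite (h u hu) measurable_const measurable_const
  exact measurableSet_le measurable_const hm

lemma measurableSet_block {ι : Type*} {Ω : Type u} (X : ι → Ω → ℝ) (B : Set ι) {u : ι}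
    (hu : u ∈ B) (c : ℝ) :
    MeasurableSet[⨆ i ∈ B, MeasurableSpace.comap (X i) inferInstance] {ω | X u ω < c} := by
  have h1 : MeasurableSet[MeasurableSpace.comap (X u) inferInstance] {ω | X u ω < c} :=
    ⟨Iio c, measurableSet_Iio, rfl⟩
  exact (le_iSup₂ (f := fun i (_ : i ∈ B) => MeasurableSpace.comap (X i) inferInstance) u hu) _ h1

lemma tsum_ne_top {Ω : Type u} [MeasurableSpace Ω] (P : Measure Ω) [IsProbabilityMeasure P]
    (Y : Ω → ℝ) (j : ℕ) (hB : ∫⁻ t in Ioi (0 : ℝ), (P {ω | Y ω < -t}) ^ j < ∞) :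
    ∑' k : ℕ, (P {ω | Y ω < -(k : ℝ)}) ^ j ≠ ∞ := by
  rw [tsum_eq_zero_add' ENNReal.summable]
  refine ENNReal.add_ne_top.2 ⟨ENNReal.pow_ne_top (measure_ne_top _ _), ?_⟩
  refine ne_top_of_le_ne_top hB.ne ?_
  have hd : Pairwise (Function.onFun Disjoint fun k : ℕ => Ioc (k : ℝ) ((k : ℝ) + 1)) := by
    intro a b hab
    simp only [Function.onFun]
    rw [Set.disjoint_left]
    intro x h1 h2
    rcases lt_or_gt_of_ne hab with h | h
    · have : (a : ℝ) + 1 ≤ b := by exact_mod_cast h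
      linarith [h1.2, h2.1]
    · have : (b : ℝ) + 1 ≤ a := by exact_mod_cast h
      linarith [h1.1, h2.2]
  calc ∑' k : ℕ, (P {ω | Y ω < -((k + 1 : ℕ) : ℝ)}) ^ j
      ≤ ∑' k : ℕ, ∫⁻ t in Ioc (k : ℝ) ((k : ℝ) + 1), (P {ω | Y ω < -t}) ^ j := by
        refine ENNReal.tsum_le_tsum fun k => ?_
        calc (P {ω | Y ω < -((k + 1 : ℕ) : ℝ)}) ^ j
            = ∫⁻ _ in Ioc (k : ℝ) ((k : ℝ) + 1), (P {ω | Y ω < -((k + 1 : ℕ) : ℝ)}) ^ j := by
              rw [setLIntegral_const]; simp
          _ ≤ _ := by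
              refine setLIntegral_mono' measurableSet_Ioc fun t ht => ?_
              refine pow_le_pow_left' (measure_mono fun ω hω => ?_) j
              have h1 : Y ω < -((k + 1 : ℕ) : ℝ) := hω
              have h2 := ht.2
              push_cast at h1
              show Y ω < -t
              linarith
    _ = ∫⁻ t in ⋃ k : ℕ, Ioc (k : ℝ) ((k : ℝ) + 1), (P {ω | Y ω < -t}) ^ j :=
        (lintegral_iUnion (fun _ => measurableSet_Ioc) hd _).symm
    _ ≤ _ := by
        refine lintegral_mono_set ?_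
        refine iUnion_subset fun k x hx => ?_
        exact lt_of_le_of_lt (Nat.cast_nonneg k) hx.1

lemma meas_lt_eq {d : ℕ} {Ω : Type u} [MeasurableSpace Ω] (P : Measure Ω) (X : V d → Ω → ℝ)
    (hid : ∀ v, IdentDistrib (X v) (X 0) P P) (v : V d) (c : ℝ) :
    P {ω | X v ω < c} = P {ω | X 0 ω < c} :=
  (hid v).measure_mem_eq (s := Iio c) measurableSet_Iio

lemma meas_cnt_le {d : ℕ} {Ω : Type u} [MeasurableSpace Ω] (P : Measure Ω) (X : V d → Ω → ℝ)
    (hi : iIndepFun X P) (hid : ∀ v, IdentDistrib (X v) (X 0) P P) (S : ℕ) (v : V d) (k j : ℕ) :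
    P {ω | j ≤ cnt S (fun u => X u ω) v k} ≤
      ((((2 * S + 1) ^ d : ℕ) : ℝ≥0∞) * P {ω | X 0 ω < -(k : ℝ)}) ^ j := by
  classical
  have hsub : {ω | j ≤ cnt S (fun u => X u ω) v k} ⊆
      ⋃ T ∈ (ball v S).powersetCard j, ⋂ u ∈ T, {ω | X u ω < -(k : ℝ)} := by
    intro ω hω
    obtain ⟨T, hT, hc⟩ := Finset.exists_subset_card_eq (show j ≤ _ from hω)
    simp only [mem_iUnion, mem_iInter]
    refine ⟨T, Finset.mem_powersetCard.2 ⟨hT.trans (Finset.filter_subset _ _), hc⟩, ?_⟩
    intro u hu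
    exact (Finset.mem_filter.1 (hT hu)).2
  refine (measure_mono hsub).trans ((measure_biUnion_finset_le _ _).trans ?_)
  have h1 : ∀ T ∈ (ball v S).powersetCard j, P (⋂ u ∈ T, {ω | X u ω < -(k : ℝ)}) =
      (P {ω | X 0 ω < -(k : ℝ)}) ^ j := by
    intro T hT
    rw [hi.meas_biInter (s := fun u => {ω | X u ω < -(k : ℝ)})
      fun u _ => ⟨Iio (-(k : ℝ)), measurableSet_Iio, rfl⟩]
    rw [Finset.prod_congr rfl fun u _ => meas_lt_eq P X hid u _, Finset.prod_const,
      (Finset.mem_powersetCard.1 hT).2]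
  rw [Finset.sum_congr rfl h1, Finset.sum_const, Finset.card_powersetCard, card_ball, nsmul_eq_mul,
    mul_pow]
  refine mul_le_mul_left ?_ _
  exact_mod_cast Nat.choose_le_pow _ _

lemma list_sum_tsum {α β : Type*} (l : List α) (w : β → α → ℝ≥0∞) :
    (l.map fun v => ∑' k, w k v).sum = ∑' k, (l.map (w k)).sum := by
  induction l with
  | nil => simp
  | cons a l ih => simp only [List.map_cons, List.sum_cons, ih, ENNReal.tsum_add]

lemma GE_le_tsum {d : ℕ} {β : Type*} (n : ℕ) (x : V d) (z : V d → ℝ≥0∞) (w : β → V d → ℝ≥0∞)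
    (h : ∀ v, z v ≤ ∑' k, w k v) : GE n x z ≤ ∑' k, GE n x (w k) := by
  refine GE_le fun l hl => ?_
  refine (List.sum_le_sum fun v _ => h v).trans ?_
  rw [list_sum_tsum]
  exact ENNReal.tsum_le_tsum fun k => le_GE hl _

/-- residue class of a site -/
def cls {d : ℕ} (S : ℕ) (v : V d) : Fin d → ZMod (2 * S + 1) := fun i => (v i : ZMod (2 * S + 1))

lemma disjoint_ball {d : ℕ} (S : ℕ) {v w : V d} (hne : v ≠ w) (h : cls S v = cls S w) :
    Disjoint (ball v S : Set (V d)) (ball w S) := by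
  rw [Set.disjoint_left]
  intro u h1 h2
  apply hne
  funext i
  have a1 := mem_ball.1 (Finset.mem_coe.1 h1) i
  have a2 := mem_ball.1 (Finset.mem_coe.1 h2) i
  have h3 : ((v i : ℤ) : ZMod (2 * S + 1)) = (w i : ℤ) := congrFun h i
  rw [ZMod.intCast_eq_intCast_iff_dvd_sub] at h3
  have h4 : w i - v i = 0 := by
    refine Int.eq_zero_of_abs_lt_dvd h3 ?_
    rw [abs_le] at a1 a2
    rw [abs_lt]
    push_cast
    constructor <;> linarith [a1.1, a1.2, a2.1, a2.2]
  linarith

open Classical in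
/-- the cluster event restricted to one residue class -/
def Ev {d : ℕ} {Ω : Type u} (X : V d → Ω → ℝ) (S k : ℕ) (c : Fin d → ZMod (2 * S + 1))
    (v : V d) : Set Ω :=
  if cls S v = c then {ω | 2 * d * d ≤ cnt S (fun u => X u ω) v k} else ∅

lemma measurableSet_Ev {d : ℕ} {Ω : Type u} [MeasurableSpace Ω] (X : V d → Ω → ℝ)
    (hm : ∀ v, Measurable (X v)) (S k : ℕ) (c : Fin d → ZMod (2 * S + 1)) (v : V d) :
    MeasurableSet (Ev X S k c v) := by
  unfold Ev
  split_ifs
  · exact measurableSet_cnt _ X S v k _ fun u _ => measurableSet_lt (hm u) measurable_const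
  · exact MeasurableSet.empty

lemma iIndepSet_Ev {d : ℕ} {Ω : Type u} [MeasurableSpace Ω] (P : Measure Ω)
    [IsProbabilityMeasure P] (X : V d → Ω → ℝ) (hm : ∀ v, Measurable (X v)) (hi : iIndepFun X P)
    (S k : ℕ) (c : Fin d → ZMod (2 * S + 1)) : iIndepSet (Ev X S k c) P := by
  classical
  refine iIndepSet_blocks P _ (fun v => (hm v).comap_le) hi.iIndep
    (fun v => if cls S v = c then (ball v S : Set (V d)) else ∅) ?_ _ ?_
  · intro a b hab
    split_ifs with h1 h2
    · exact disjoint_ball S hab (h1.trans h2.symm)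
    · simp
    · simp
    · simp
  · intro v
    unfold Ev
    split_ifs with h1
    · exact measurableSet_cnt _ X S v k _ fun u hu =>
        measurableSet_block X _ (by rw [if_pos h1]; exact Finset.mem_coe.2 hu) _
    · exact @MeasurableSet.empty _ (_)

lemma ray_eq {d : ℕ} {e e' : Fin d × Bool} {s t : ℕ} (hs : 1 ≤ s) (h : ray e s = ray e' t) :
    e = e' := by
  obtain ⟨i, a⟩ := e
  obtain ⟨j, b⟩ := e'
  have h1 := congrFun h i
  unfold ray at h1
  by_cases hij : i = j
  · subst hij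
    cases a <;> cases b <;> simp at h1 ⊢ <;> omega
  · cases a <;> simp [hij] at h1 <;> omega

end Cluster

open Cluster

theorem measurable_zt {d : ℕ} {Ω : Type u} [MeasurableSpace Ω] (X : V d → Ω → ℝ)
    (hm : ∀ v, Measurable (X v)) (S t : ℕ) (v : V d) :
    Measurable fun ω => zt S t (fun u => X u ω) v := by
  unfold zt
  refine Measurable.tsum fun k => Measurable.ite ?_ measurable_const measurable_const
  exact measurableSet_cnt _ X S v _ _ fun u _ => measurableSet_lt (hm u) measurable_const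

theorem Cluster.measurableSet_rays {d : ℕ} {Ω : Type u} [MeasurableSpace Ω] (X : V d → Ω → ℝ)
    (hm : ∀ v, Measurable (X v)) (S k : ℕ) :
    MeasurableSet {ω | ∀ e : Fin d × Bool, ∃ t ∈ Finset.Icc 1 S, X (ray e t) ω < -(k : ℝ)} := by
  have : {ω | ∀ e : Fin d × Bool, ∃ t ∈ Finset.Icc 1 S, X (ray e t) ω < -(k : ℝ)} =
      ⋂ e : Fin d × Bool, ⋃ t ∈ Finset.Icc 1 S, {ω | X (ray e t) ω < -(k : ℝ)} := by
    ext ω; simp
  rw [this]
  exact MeasurableSet.iInter fun e => Finset.measurableSet_biUnion _ fun t _ =>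
    measurableSet_lt (hm _) measurable_const

theorem measurable_rt {d : ℕ} {Ω : Type u} [MeasurableSpace Ω] (X : V d → Ω → ℝ)
    (hm : ∀ v, Measurable (X v)) (S : ℕ) : Measurable fun ω => rt S fun u => X u ω := by
  unfold rt
  exact Measurable.tsum fun k =>
    Measurable.ite (measurableSet_rays X hm S k) measurable_const measurable_const

theorem cluster_tail {d : ℕ} (hd : 1 ≤ d) (hBG : BG.{u} d) {Ω : Type u} [MeasurableSpace Ω]
    (P : Measure Ω) [IsProbabilityMeasure P] (X : V d → Ω → ℝ) (hm : ∀ v, Measurable (X v))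
    (hi : iIndepFun X P) (hid : ∀ v, IdentDistrib (X v) (X 0) P P)
    (hB : ∫⁻ t in Ioi (0 : ℝ), (P {ω | X 0 ω < -t}) ^ (2 * d) < ∞) (S : ℕ)
    (ε : ℝ≥0∞) (hε : 0 < ε) :
    ∃ t : ℕ, (∀ n : ℕ, ∫⁻ ω, GE n 0 (zt S t fun v => X v ω) ∂P ≤ ε * n) ∧
      ∀ v, ∫⁻ ω, zt S t (fun u => X u ω) v ∂P ≤ ε := by
  classical
  obtain ⟨C, hC, hG⟩ := hBG
  set r : ℕ → ℝ≥0∞ := fun k =>
    ((((2 * S + 1) ^ d : ℕ) : ℝ≥0∞) * P {ω | X 0 ω < -(k : ℝ)}) ^ (2 * d) with hr
  have hrs : ∑' k, r k ≠ ∞ := by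
    simp only [hr, mul_pow, ENNReal.tsum_mul_left]
    exact ENNReal.mul_ne_top (ENNReal.pow_ne_top (ENNReal.natCast_ne_top _))
      (tsum_ne_top P (X 0) _ hB)
  have hE : ∀ v k, P {ω | 2 * d * d ≤ cnt S (fun u => X u ω) v k} ≤ r k ^ d := by
    intro v k
    rw [hr]
    simp only [← pow_mul]
    simpa only [← pow_mul] using meas_cnt_le P X hi hid S v k (2 * d * d)
  set K : ℝ≥0∞ := (Fintype.card (Fin d → ZMod (2 * S + 1)) : ℝ≥0∞) * C + 1 with hK
  have hKt : K ≠ ∞ :=
    ENNReal.add_ne_top.2 ⟨ENNReal.mul_ne_top (ENNReal.natCast_ne_top _) hC, ENNReal.one_ne_top⟩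
  have hT : Tendsto (fun t => K * ∑' k, r (k + t)) atTop (𝓝 0) := by
    have := ENNReal.Tendsto.const_mul (a := K) (ENNReal.tendsto_sum_nat_add r hrs) (Or.inr hKt)
    simpa using this
  obtain ⟨t, ht⟩ := (hT.eventually (ge_mem_nhds hε)).exists
  refine ⟨t, fun n => ?_, fun v => ?_⟩
  · calc ∫⁻ ω, GE n 0 (zt S t fun v => X v ω) ∂P
        ≤ ∫⁻ ω, ∑' q : ℕ × (Fin d → ZMod (2 * S + 1)),
            GE n 0 (fun v => (Ev X S (q.1 + t) q.2 v).indicator 1 ω) ∂P := by
          refine lintegral_mono fun ω => ?_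
          refine GE_le_tsum n 0 _ _ fun v => ?_
          rw [ENNReal.tsum_prod']
          unfold zt
          refine ENNReal.tsum_le_tsum fun k => ?_
          refine le_trans ?_ (ENNReal.le_tsum (cls S v))
          simp [Ev, Set.indicator_apply]
      _ = ∑' q : ℕ × (Fin d → ZMod (2 * S + 1)),
            ∫⁻ ω, GE n 0 (fun v => (Ev X S (q.1 + t) q.2 v).indicator 1 ω) ∂P := by
          refine lintegral_tsum fun q => Measurable.aemeasurable ?_
          exact measurable_GE n 0 (fun v ω => (Ev X S (q.1 + t) q.2 v).indicator 1 ω)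
            fun v => measurable_one.indicator (measurableSet_Ev X hm _ _ _ v)
      _ ≤ ∑' q : ℕ × (Fin d → ZMod (2 * S + 1)), C * n * r (q.1 + t) := by
          refine ENNReal.tsum_le_tsum fun q => ?_
          refine hG Ω P _ (measurableSet_Ev X hm _ _ _) (iIndepSet_Ev P X hm hi _ _ _) _
            (fun v => ?_) n
          unfold Ev
          split_ifs
          · exact hE v _
          · simp
      _ = ((Fintype.card (Fin d → ZMod (2 * S + 1)) : ℝ≥0∞) * C * ∑' k, r (k + t)) * n := by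
          rw [ENNReal.tsum_prod']
          simp only [tsum_fintype, Finset.sum_const, Finset.card_univ, nsmul_eq_mul]
          rw [ENNReal.tsum_mul_left, ENNReal.tsum_mul_left]
          ring
      _ ≤ ε * n := by
          refine mul_le_mul_left (le_trans ?_ ht) _
          exact mul_le_mul_left le_self_add _
  · calc ∫⁻ ω, zt S t (fun u => X u ω) v ∂P
        = ∑' k, P {ω | 2 * d * d ≤ cnt S (fun u => X u ω) v (k + t)} := by
          unfold zt
          have hms : ∀ k, MeasurableSet {ω | 2 * d * d ≤ cnt S (fun u => X u ω) v (k + t)} :=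
            fun k => measurableSet_cnt _ X S v _ _ fun u _ =>
              measurableSet_lt (hm u) measurable_const
          rw [lintegral_tsum fun k =>
            (Measurable.ite (hms k) measurable_const measurable_const).aemeasurable]
          refine tsum_congr fun k => ?_
          rw [← lintegral_indicator_one (hms k)]
          refine lintegral_congr fun ω => ?_
          simp [Set.indicator_apply]
      _ ≤ ∑' k, r (k + t) := by
          refine ENNReal.tsum_le_tsum fun k => ?_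
          rcases le_total (r (k + t)) 1 with h | h
          · exact (hE v _).trans (pow_le_of_le_one (by simp) h (by omega))
          · exact prob_le_one.trans h
      _ ≤ K * ∑' k, r (k + t) := by
          refine le_mul_of_one_le_left' ?_
          exact le_add_self
      _ ≤ ε := ht

theorem ray_tail {d : ℕ} (hd : 1 ≤ d) {Ω : Type u} [MeasurableSpace Ω]
    (P : Measure Ω) [IsProbabilityMeasure P] (X : V d → Ω → ℝ) (hm : ∀ v, Measurable (X v))
    (hi : iIndepFun X P) (hid : ∀ v, IdentDistrib (X v) (X 0) P P)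
    (hB : ∫⁻ t in Ioi (0 : ℝ), (P {ω | X 0 ω < -t}) ^ (2 * d) < ∞) (S : ℕ) :
    ∫⁻ ω, rt S (fun u => X u ω) ∂P < ∞ := by
  classical
  have _ := hd
  have hE : ∀ k : ℕ,
      P {ω | ∀ e : Fin d × Bool, ∃ t ∈ Finset.Icc 1 S, X (ray e t) ω < -(k : ℝ)} ≤
        ((S : ℝ≥0∞) * P {ω | X 0 ω < -(k : ℝ)}) ^ (2 * d) := by
    intro k
    have hI : iIndepSet (fun e : Fin d × Bool =>
        ⋃ t ∈ Finset.Icc 1 S, {ω | X (ray e t) ω < -(k : ℝ)}) P := by
      refine iIndepSet_blocks P _ (fun v => (hm v).comap_le) hi.iIndep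
        (fun e => {u | ∃ t, 1 ≤ t ∧ u = ray e t}) ?_ _ ?_
      · intro a b hab
        rw [Set.disjoint_left]
        rintro u ⟨s, hs, rfl⟩ ⟨t, _, h⟩
        exact hab (ray_eq hs h)
      · intro e
        exact Finset.measurableSet_biUnion _ fun t ht =>
          measurableSet_block X {u | ∃ t, 1 ≤ t ∧ u = ray e t}
            ⟨t, (Finset.mem_Icc.1 ht).1, rfl⟩ _
    have h1 : {ω | ∀ e : Fin d × Bool, ∃ t ∈ Finset.Icc 1 S, X (ray e t) ω < -(k : ℝ)} =
        ⋂ e ∈ (Finset.univ : Finset (Fin d × Bool)),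
          ⋃ t ∈ Finset.Icc 1 S, {ω | X (ray e t) ω < -(k : ℝ)} := by
      ext ω; simp
    rw [h1, hI.meas_biInter]
    refine (Finset.prod_le_pow_card _ _ ((S : ℝ≥0∞) * P {ω | X 0 ω < -(k : ℝ)}) ?_).trans ?_
    · intro e _
      refine (measure_biUnion_finset_le _ _).trans ?_
      rw [Finset.sum_congr rfl fun t _ => meas_lt_eq P X hid (ray e t) _]
      simp
    · simp [mul_comm]
  calc ∫⁻ ω, rt S (fun u => X u ω) ∂P
      = ∑' k : ℕ, P {ω | ∀ e : Fin d × Bool, ∃ t ∈ Finset.Icc 1 S,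
          X (ray e t) ω < -(k : ℝ)} := by
        unfold rt
        rw [lintegral_tsum]
        swap
        · exact fun k => (Measurable.ite (measurableSet_rays X hm S k)
            measurable_const measurable_const).aemeasurable
        refine tsum_congr fun k => ?_
        rw [← lintegral_indicator_one (measurableSet_rays X hm S k)]
        refine lintegral_congr fun ω => ?_
        simp only [Set.indicator_apply, mem_ofPred_eq, Pi.one_apply]
        congr
    _ ≤ ∑' k : ℕ, ((S : ℝ≥0∞) * P {ω | X 0 ω < -(k : ℝ)}) ^ (2 * d) := ENNReal.tsum_le_tsum hE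
    _ < ∞ := by
        simp only [mul_pow, ENNReal.tsum_mul_left]
        exact ENNReal.mul_lt_top (ENNReal.pow_lt_top (ENNReal.natCast_lt_top _))
          (tsum_ne_top P (X 0) _ hB).lt_top

end Pool.Agent.H742Z.GP
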